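import Pool.Agent.X224.SF.Base

/-!
For every `d ≥ 2` there is a subshift of finite type `S` over `ℤ^d` such that the free part of
`2^{ℤ^d}` has a Baire measurable equivariant map into `S`, but no Borel equivariant map into `S` and,
for some shift invariant Borel probability measure `μ`, no `μ`-measurable equivariant map into `S`.
So (ii) implies neither (i) nor (iii).
-/

namespace Pool.Agent.Results.MP_6540cb_lc.BaireOnly

open MeasureTheory
open Pool.Agent.W927 Pool.Agent.X224.SF
open Pool.Agent.W927.BM (PBM PBM_iff PBM_inBaire circle_neg LCLP)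

/-- For every `d ≥ 2` there is a subshift of finite type with a Baire measurable equivariant map,
without Borel equivariant map, and without `μ`-measurable equivariant map for some shift invariant
Borel probability measure `μ` on the free part. -/
theorem result (d : ℕ) (hd : 2 ≤ d) :
    ∃ (k : ℕ) (S : Set (Conf d (Fin k))), IsSFT S ∧ HasBaire S ∧ ¬ HasBorel S ∧ ¬ HasMeasure S ∧
      ∃ μ : Measure (FreePart d), IsProbabilityMeasure μ ∧
        (∀ g : Fin d → ℤ, Measure.map (act g) μ = μ) ∧
        ¬ ∃ T : FreePart d → Conf d (Fin k), IsEquivMap S T ∧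
          ∀ B : Set (Conf d (Fin k)), MeasurableSet B → NullMeasurableSet (T ⁻¹' B) μ := by
  obtain ⟨k, ⟨e⟩⟩ : ∃ k, Nonempty (Fin k ≃ Pool.Agent.W927.BM.Lab) :=
    ⟨_, ⟨(Fintype.equivFin Pool.Agent.W927.BM.Lab).symm⟩⟩
  set P : LCLP (Fin d → ℤ) := PBM hd e with hP
  obtain ⟨α, hα⟩ := exists_alpha d
  have hprob : IsProbabilityMeasure (volume : Measure TT) := ⟨by simp⟩
  have hmc := measurable_codeF hα
  let μ : Measure (FreePart d) := Measure.map (codeF hα) volume
  have hμ : IsProbabilityMeasure μ := Measure.isProbabilityMeasure_map hmc.aemeasurable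
  have hinv : ∀ g : Fin d → ℤ, Measure.map (act g) μ = μ := by
    intro g
    have h1 : Measurable (act g : FreePart d → FreePart d) := (continuous_act g).measurable
    have h2 : (act g) ∘ (codeF hα) = (codeF hα) ∘ (fun θ : TT => θ + lin α g) := by
      funext θ
      exact Subtype.ext (code_shift α θ g).symm
    have h3 : Measurable (fun θ : TT => θ + lin α g) := measurable_add_const _
    change Measure.map (act g) (Measure.map (codeF hα) volume) = Measure.map (codeF hα) volume
    rw [Measure.map_map h1 hmc, h2, ← Measure.map_map hmc h3]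
    congr 1
    exact (measurePreserving_add_right volume (lin α g)).map_eq
  have hno : ¬ ∃ T : FreePart d → Conf d (Fin P.k), IsEquivMap (sub P) T ∧
      ∀ B : Set (Conf d (Fin P.k)), MeasurableSet B → NullMeasurableSet (T ⁻¹' B) μ := by
    rintro ⟨T, hT, hTm⟩
    let f : TT → Fin P.k := fun θ => T (codeF hα θ) 0
    have hlab : P.IsLabelling (fun g y => lin α g + y) f := by
      intro y
      have h1 := hT.mem (codeF hα y) 0
      have h2 : (fun σ : P.W => f (lin α σ.1 + y)) =
          fun σ : P.W => shift 0 (T (codeF hα y)) σ.1 := by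
        funext σ
        rw [shift_zero, read hα hT y σ.1, add_comm y]
      change (fun σ : P.W => f (lin α σ.1 + y)) ∈ P.A
      rw [h2]
      exact h1
    refine circle_neg hd hα ⟨fun y => e (f y), ?_, ?_⟩
    · intro l
      have h0 : Measurable fun s : Conf d (Fin P.k) => s 0 := measurable_pi_apply 0
      have h1 : MeasurableSet {s : Conf d (Fin P.k) | s 0 = e.symm l} :=
        h0 (measurableSet_singleton (e.symm l))
      have h2 : NullMeasurableSet (codeF hα ⁻¹' (T ⁻¹' {s | s 0 = e.symm l})) volume :=
        (hTm _ h1).preimage (hmc.quasiMeasurePreserving volume)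
      have h3 : (fun y => e (f y)) ⁻¹' {l} = codeF hα ⁻¹' (T ⁻¹' {s | s 0 = e.symm l}) := by
        ext y
        simp only [Set.mem_preimage, Set.mem_singleton_iff, Set.mem_ofPred_eq]
        exact (Equiv.eq_symm_apply e).symm
      rw [h3]
      exact h2
    · refine Filter.Eventually.of_forall fun y => ?_
      refine (PBM_iff hd e (fun g h x => ?_) f).1 hlab y
      rw [map_add, add_assoc]
  refine ⟨P.k, sub P, isSFT_sub P, hasBaire_sub (PBM_inBaire hd e), ?_, ?_, μ, hμ, hinv, hno⟩
  · rintro ⟨T, hT, hTm⟩
    exact hno ⟨T, hT, fun B hB => (hTm hB).nullMeasurableSet⟩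
  · intro h
    exact hno (h μ hμ)

end Pool.Agent.Results.MP_6540cb_lc.BaireOnly
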